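import Pool.Agent.Helper88.TSBridge

/-!
# 3-Sasakian Kirwan surjectivity fails below the middle dimension

The group `Sp(1)` acts on the round 3-Sasakian sphere `S²³ ⊂ ℍ⁶` by left multiplication. It is
compact and connected, it acts by isometries commuting with the three complex structures of the
flat hyperkähler cone `ℍ⁶`, the action is free, and the 3-Sasakian moment map has `0` as a
regular value. The reduction `S_red = μ⁻¹(0)/Sp(1)` is a compact Hausdorff manifold of
dimension `11`. There is a class in `H²(S_red; K)`, for every field `K` of characteristic zero,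
which is not in the image of the Kirwan map, although `2 < 11/2`.
-/

set_option autoImplicit false

open Pool.Agent.Helper88.TSS

namespace Pool.Agent.Results.MP_bcebf9_gt.KirwanFails

theorem result.{u, v} :
    QuaternionRelations 6 ∧ ActsByAutomorphisms 6 ∧ ZeroIsRegularValue 6 ∧
    IsCompactManifold 11 (Orbits (level 6)) ∧
    ∀ (K : Type u) [Field K] [CharZero K] (E : Type v) [TopologicalSpace E] [MulAction Sp1 E]
      [Nonempty E], KirwanNotOnto K 1 6 E :=
  ⟨Pool.Agent.Helper88.TSB.quat_relations 6, Pool.Agent.Helper88.TSB.acts 6,
    Pool.Agent.Helper88.TSB.regular, Pool.Agent.Helper88.TSB.manifold,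
    fun K _ _ E _ _ _ => Pool.Agent.Helper88.TSB.notOnto K E⟩

end Pool.Agent.Results.MP_bcebf9_gt.KirwanFails
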